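import Mathlib

set_option autoImplicit false

/-! # Kernel-perfect biorientations and derangement assignments: a counterexample -/

namespace Pool.Agent.Results.MP_201e5f_co.TriangleCounterexample

/-- a loopless multigraph with vertex type `V` and edge type `E`; the edge `e` joins `fst e` and
`snd e` -/
structure MGraph (V E : Type) where
  fst : E → V
  snd : E → V
  ne : ∀ e, fst e ≠ snd e

/-- a biorientation: `fwd e` says that the arc `(fst e, snd e)` is present, `bwd e` that the arc
`(snd e, fst e)` is present -/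
structure Biorientation {V E : Type} (G : MGraph V E) where
  fwd : E → Prop
  bwd : E → Prop
  fwd_or_bwd : ∀ e, fwd e ∨ bwd e

/-- there is an arc from `v` to `u` -/
def Biorientation.Arc {V E : Type} {G : MGraph V E} (D : Biorientation G) (v u : V) : Prop :=
  ∃ e, (D.fwd e ∧ G.fst e = v ∧ G.snd e = u) ∨ (D.bwd e ∧ G.snd e = v ∧ G.fst e = u)

/-- the out-degree, counted with multiplicity -/
noncomputable def Biorientation.outdeg {V E : Type} {G : MGraph V E} (D : Biorientation G)
    (v : V) : ℕ :=
  Nat.card {e // D.fwd e ∧ G.fst e = v} + Nat.card {e // D.bwd e ∧ G.snd e = v}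

/-- `U` is a kernel of the subdigraph induced by `S` -/
def Biorientation.IsKernel {V E : Type} {G : MGraph V E} (D : Biorientation G)
    (S U : Set V) : Prop :=
  U ⊆ S ∧ (∀ u ∈ U, ∀ v ∈ U, ¬ D.Arc u v) ∧ ∀ v ∈ S, v ∉ U → ∃ u ∈ U, D.Arc v u

/-- every induced subdigraph has a kernel -/
def Biorientation.KernelPerfect {V E : Type} {G : MGraph V E} (D : Biorientation G) : Prop :=
  ∀ S : Set V, ∃ U, D.IsKernel S U

/-- a correspondence assignment: a finite list of colours for each vertex, and for each edge `e` a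
partial matching `C e` between the lists of its ends; the pair `(c, d) ∈ C e` stands for
`{(fst e, c), (snd e, d)}` -/
structure Assignment {V E : Type} (G : MGraph V E) where
  L : V → Finset ℕ
  C : E → Set (ℕ × ℕ)
  mem : ∀ e, ∀ p ∈ C e, p.1 ∈ L (G.fst e) ∧ p.2 ∈ L (G.snd e)
  matching : ∀ e, ∀ p ∈ C e, ∀ q ∈ C e, (p.1 = q.1 ∨ p.2 = q.2) → p = q

/-- the edge `e` is straight -/
def Assignment.Straight {V E : Type} {G : MGraph V E} (A : Assignment G) (e : E) : Prop :=
  ∀ p ∈ A.C e, p.1 = p.2

/-- the assignment is a derangement assignment: twisted edges carry partial derangements -/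
def Assignment.IsDerangement {V E : Type} {G : MGraph V E} (A : Assignment G) : Prop :=
  ∀ e, ¬ A.Straight e → ∀ p ∈ A.C e, p.1 ≠ p.2

/-- the graph is colourable -/
def Assignment.Colourable {V E : Type} {G : MGraph V E} (A : Assignment G) : Prop :=
  ∃ φ : V → ℕ, (∀ v, φ v ∈ A.L v) ∧ ∀ e, (φ (G.fst e), φ (G.snd e)) ∉ A.C e

/-- the triangle with two parallel edges `(i, false)` and `(i, true)` between `i` and `i + 1` -/
def tri : MGraph (Fin 3) (Fin 3 × Bool) where
  fst e := e.1
  snd e := e.1 + 1
  ne := by decide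

/-- the edges `(i, false)` are oriented from `i` to `i + 1`, the edges `(i, true)` both ways -/
def D : Biorientation tri where
  fwd _ := True
  bwd e := e.2 = true
  fwd_or_bwd _ := Or.inl trivial

/-- the partner of a colour on the twisted edges -/
def sw : ℕ → ℕ
  | 0 => 1
  | 1 => 0
  | 2 => 3
  | 3 => 2
  | n => n

/-- the assignment: lists `{0, 1, 2, 3}`, the edges `(i, false)` straight, and `0 ↔ 1`, `2 ↔ 3` on
the edges `(i, true)` -/
def A : Assignment tri where
  L _ := Finset.range 4
  C e := {p | p.1 ∈ Finset.range 4 ∧ p.2 ∈ Finset.range 4 ∧ p.2 = if e.2 then sw p.1 else p.1}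
  mem := fun e p hp => ⟨hp.1, hp.2.1⟩
  matching := by
    rintro ⟨i, b⟩ ⟨p1, p2⟩ ⟨hp1, hp2, hp3⟩ ⟨q1, q2⟩ ⟨hq1, hq2, hq3⟩ h
    simp only [Finset.mem_range] at *
    rcases b with _ | _
    · simp only [Bool.false_eq_true, if_false] at hp3 hq3
      subst hp3 hq3
      rcases h with h | h <;> simp [h]
    · simp only [if_true] at hp3 hq3
      subst hp3 hq3
      interval_cases p1 <;> interval_cases q1 <;> simp_all [sw]

theorem arc_all (u v : Fin 3) (h : u ≠ v) : D.Arc v u := by
  have key : ∀ u v : Fin 3, u ≠ v → (u = v + 1 ∨ v = u + 1) := by decide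
  rcases key u v h with h' | h'
  · exact ⟨(v, true), Or.inl ⟨trivial, rfl, h'.symm⟩⟩
  · exact ⟨(u, true), Or.inr ⟨rfl, h'.symm, rfl⟩⟩

theorem kernelPerfect : D.KernelPerfect := by
  intro S
  rcases S.eq_empty_or_nonempty with rfl | ⟨u, hu⟩
  · exact ⟨∅, subset_rfl, fun u hu => absurd hu (Set.notMem_empty _),
      fun v hv => absurd hv (Set.notMem_empty _)⟩
  · refine ⟨{u}, Set.singleton_subset_iff.2 hu, ?_, ?_⟩
    · rintro x hx y hy ⟨e, he⟩
      rw [Set.mem_singleton_iff] at hx hy
      subst hx hy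
      rcases he with ⟨-, h1, h2⟩ | ⟨-, h1, h2⟩
      · exact tri.ne e (h1.trans h2.symm)
      · exact tri.ne e (h2.trans h1.symm)
    · intro v _ hv
      exact ⟨u, rfl, arc_all u v (fun h => hv h.symm)⟩

theorem outdeg_eq (v : Fin 3) : D.outdeg v = 3 := by
  unfold Biorientation.outdeg
  have h1 : Nat.card {e : Fin 3 × Bool // D.fwd e ∧ tri.fst e = v} = 2 := by
    have : ∀ e : Fin 3 × Bool, (D.fwd e ∧ tri.fst e = v) ↔ e.1 = v := fun e =>
      ⟨fun h => h.2, fun h => ⟨trivial, h⟩⟩
    rw [Nat.card_congr (Equiv.subtypeEquivRight this), Nat.card_eq_fintype_card]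
    clear this
    revert v
    decide
  have h2 : Nat.card {e : Fin 3 × Bool // D.bwd e ∧ tri.snd e = v} = 1 := by
    have : ∀ e : Fin 3 × Bool, (D.bwd e ∧ tri.snd e = v) ↔ (e.2 = true ∧ e.1 + 1 = v) := fun e =>
      Iff.rfl
    rw [Nat.card_congr (Equiv.subtypeEquivRight this), Nat.card_eq_fintype_card]
    clear h1 this
    revert v
    decide
  rw [h1, h2]

theorem mem_C_true (i : Fin 3) (c : ℕ) (hc : c < 4) : (c, sw c) ∈ A.C (i, true) := by
  refine ⟨Finset.mem_range.2 hc, ?_, rfl⟩
  rw [Finset.mem_range]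
  interval_cases c <;> decide

theorem not_straight (i : Fin 3) : ¬ A.Straight (i, true) := by
  intro h
  have := h _ (mem_C_true i 0 (by norm_num))
  exact absurd this (by decide)

theorem straight (i : Fin 3) : A.Straight (i, false) := by
  rintro ⟨p, q⟩ ⟨-, -, h⟩
  exact h.symm

theorem isDerangement : A.IsDerangement := by
  rintro ⟨i, b⟩ hb ⟨p, q⟩ ⟨hp, hq, h⟩
  rcases b with _ | _
  · exact absurd (straight i) hb
  · simp only [Finset.mem_range, if_true] at hp hq h
    subst h
    interval_cases p <;> decide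

theorem not_colourable : ¬ A.Colourable := by
  rintro ⟨φ, hφ, h⟩
  have hlt : ∀ v, φ v < 4 := fun v => Finset.mem_range.1 (hφ v)
  -- adjacent vertices have colours in different classes `{0, 1}`, `{2, 3}`
  have key : ∀ i : Fin 3, (φ i < 2 ↔ ¬ φ (i + 1) < 2) := by
    intro i
    have h1 := h (i, false)
    have h2 := h (i, true)
    have h3 := hlt i
    have h4 := hlt (i + 1)
    have h1' : ¬ φ (i + 1) = φ i := fun he =>
      h1 ⟨Finset.mem_range.2 h3, Finset.mem_range.2 h4, he⟩
    have h2' : ¬ φ (i + 1) = sw (φ i) := fun he =>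
      h2 ⟨Finset.mem_range.2 h3, Finset.mem_range.2 h4, he⟩
    generalize φ i = a at *
    generalize φ (i + 1) = b at *
    interval_cases a <;> interval_cases b <;> simp_all [sw]
  have h0 := key 0
  have h1 := key 1
  have h2 := key 2
  rw [show (0 : Fin 3) + 1 = 1 from rfl] at h0
  rw [show (1 : Fin 3) + 1 = 2 from rfl] at h1
  rw [show (2 : Fin 3) + 1 = 0 from rfl] at h2
  tauto

/-- **Theorem.** There are a loopless multigraph `G` (the triangle with all edges doubled), a
kernel-perfect biorientation `D` of `G` and a derangement assignment on `G` all of whose twisted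
edges are oriented both ways, with `|L(v)| ≥ d⁺(v) + 1` for all `v`, such that `G` is not
colourable. -/
theorem result : ∃ (G : MGraph (Fin 3) (Fin 3 × Bool)) (D : Biorientation G) (A : Assignment G),
    D.KernelPerfect ∧ A.IsDerangement ∧ (∀ e, ¬ A.Straight e → D.fwd e ∧ D.bwd e) ∧
      (∀ v, D.outdeg v + 1 ≤ (A.L v).card) ∧ ¬ A.Colourable := by
  refine ⟨tri, D, A, kernelPerfect, isDerangement, ?_, ?_, not_colourable⟩
  · rintro ⟨i, b⟩ hb
    rcases b with _ | _
    · exact absurd (straight i) hb
    · exact ⟨trivial, rfl⟩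
  · intro v
    rw [outdeg_eq]
    simp [A]

end Pool.Agent.Results.MP_201e5f_co.TriangleCounterexample
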